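import Pool.Agent.P8H79.RC.Stm
import Pool.Agent.P8H52.RC.Cl

set_option autoImplicit false

/-!
# Project RC, package CNT2: every edge is in one or two triangles
-/

namespace Pool.Agent.P8H55.RC

open Finset
open Pool.Agent.P8H79.RC

theorem closed_univ {W : Type} (H : SimpleGraph W) (hc : H.Connected) (S : Set W) (b : W)
    (hb : b ∈ S) (hS : ∀ u ∈ S, ∀ v, H.Adj u v → v ∈ S) (w : W) : w ∈ S := by
  obtain ⟨p⟩ := hc.preconnected b w
  induction p with
  | nil => exact hb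
  | cons h p ih => exact ih (hS _ hb _ h)

section

variable {V : Type} (G : SimpleGraph V)

theorem cc_comm (a b : V) : cc G a b = cc G b a := by
  unfold cc
  congr 1
  ext x
  simp only [Set.mem_setOf_eq, and_comm]

/-- `cc a b ≥ 1` on edges -/
theorem cc_pos [Finite V] (hT : ∀ v, (link G v).IsTree) (h3 : ∀ v, 3 ≤ (G.neighborSet v).ncard)
    {a b : V} (h : G.Adj a b) : 1 ≤ cc G a b := by
  by_contra hn
  have h0 : cc G a b = 0 := by omega
  have hfin : {x : V | G.Adj a x ∧ G.Adj b x}.Finite := Set.toFinite _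
  have hE : {x : V | G.Adj a x ∧ G.Adj b x} = ∅ := (Set.ncard_eq_zero hfin).1 h0
  -- a second neighbour
  obtain ⟨w, hw, hwb⟩ : ∃ w ∈ G.neighborSet a, w ≠ b := by
    by_contra hn
    push Not at hn
    have h1 : G.neighborSet a ⊆ {b} := fun w hw => hn w hw
    have h2 := Set.ncard_le_ncard h1 (Set.finite_singleton b)
    rw [Set.ncard_singleton] at h2
    have := h3 a
    omega
  have h1 := closed_univ (link G a) (hT a).1 {⟨b, h⟩} ⟨b, h⟩ rfl (by
    rintro u rfl v hv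
    exfalso
    have h2 : G.Adj b v.1 := hv
    have h3 : v.1 ∈ {x : V | G.Adj a x ∧ G.Adj b x} := ⟨v.2, h2⟩
    rw [hE] at h3
    exact h3) ⟨w, hw⟩
  exact hwb (congrArg Subtype.val h1)

/-- a triangle does not have two edges with `cc = 1` -/
theorem not_two [Finite V] (hT : ∀ v, (link G v).IsTree) (h3 : ∀ v, 3 ≤ (G.neighborSet v).ncard)
    {a b x : V} (hab : G.Adj a b) (hax : G.Adj a x) (hbx : G.Adj b x) (h1 : cc G a b = 1)
    (h2 : cc G a x = 1) : False := by
  obtain ⟨y, hy⟩ := Set.ncard_eq_one.1 h1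
  obtain ⟨z, hz⟩ := Set.ncard_eq_one.1 h2
  have hy' : x = y := by
    have : x ∈ {x : V | G.Adj a x ∧ G.Adj b x} := ⟨hax, hbx⟩
    rw [hy] at this
    exact this
  have hz' : b = z := by
    have : b ∈ {w : V | G.Adj a w ∧ G.Adj x w} := ⟨hab, hbx.symm⟩
    rw [hz] at this
    exact this
  subst hy'
  subst hz'
  obtain ⟨w, hw, hwb, hwx⟩ : ∃ w ∈ G.neighborSet a, w ≠ b ∧ w ≠ x := by
    by_contra hn
    push Not at hn
    have h1 : G.neighborSet a ⊆ {b, x} := by
      intro w hw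
      by_cases h : w = b
      · exact Or.inl h
      · exact Or.inr (hn w hw h)
    have h2 := Set.ncard_le_ncard h1 (Set.toFinite _)
    have h4 := Set.ncard_insert_le b {x}
    rw [Set.ncard_singleton] at h4
    have := h3 a
    omega
  have h5 := closed_univ (link G a) (hT a).1 {u | u.1 = b ∨ u.1 = x} ⟨b, hab⟩ (Or.inl rfl) (by
    rintro u (hu | hu) v hv
    · right
      have h6 : G.Adj u.1 v.1 := hv
      rw [hu] at h6
      have h7 : v.1 ∈ {w : V | G.Adj a w ∧ G.Adj b w} := ⟨v.2, h6⟩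
      rw [hy] at h7
      exact h7
    · left
      have h6 : G.Adj u.1 v.1 := hv
      rw [hu] at h6
      have h7 : v.1 ∈ {w : V | G.Adj a w ∧ G.Adj x w} := ⟨v.2, h6⟩
      rw [hz] at h7
      exact h7) ⟨w, hw⟩
  rcases h5 with h5 | h5
  · exact hwb h5
  · exact hwx h5

end

section

open Classical

variable {V : Type} [Fintype V] (G : SimpleGraph V)

/-- ordered edges -/
noncomputable def EE : Finset (V × V) := univ.filter fun p => G.Adj p.1 p.2

/-- ordered triangles -/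
noncomputable def TT : Finset (V × V × V) :=
  univ.filter fun t => G.Adj t.1 t.2.1 ∧ G.Adj t.2.1 t.2.2 ∧ G.Adj t.1 t.2.2

theorem mem_EE {p : V × V} : p ∈ EE G ↔ G.Adj p.1 p.2 := by simp [EE]

theorem mem_TT {t : V × V × V} :
    t ∈ TT G ↔ G.Adj t.1 t.2.1 ∧ G.Adj t.2.1 t.2.2 ∧ G.Adj t.1 t.2.2 := by simp [TT]

theorem card_fib (P : V × V → Prop) :
    ((TT G).filter fun t => P (t.1, t.2.1)).card = ∑ p ∈ (EE G).filter P, cc G p.1 p.2 := by
  rw [Finset.card_eq_sum_card_fiberwise (f := fun t : V × V × V => (t.1, t.2.1))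
    (t := (EE G).filter P)]
  · refine Finset.sum_congr rfl fun p hp => ?_
    obtain ⟨hp1, hp2⟩ := Finset.mem_filter.1 hp
    rw [mem_EE] at hp1
    have h1 : (((TT G).filter fun t => P (t.1, t.2.1)).filter fun t => (t.1, t.2.1) = p) =
        (univ.filter fun x => G.Adj p.1 x ∧ G.Adj p.2 x).image fun x => (p.1, p.2, x) := by
      ext ⟨a, b, x⟩
      simp only [Finset.mem_filter, mem_TT, Finset.mem_image, Finset.mem_univ, true_and]
      constructor
      · rintro ⟨⟨⟨h1, h2, h3⟩, h4⟩, rfl⟩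
        exact ⟨x, ⟨h3, h2⟩, rfl⟩
      · rintro ⟨y, ⟨h1, h2⟩, h3⟩
        obtain ⟨p1, p2⟩ := p
        obtain ⟨h4, h5⟩ := Prod.mk.inj h3
        obtain ⟨h6, h7⟩ := Prod.mk.inj h5
        simp only at h1 h2 h4 h6 hp1 hp2
        subst h4
        subst h6
        subst h7
        exact ⟨⟨⟨hp1, h2, h1⟩, hp2⟩, rfl⟩
    rw [h1, Finset.card_image_of_injective _ (fun x y h => (Prod.mk.inj (Prod.mk.inj h).2).2)]
    rw [cc, ← Set.ncard_coe_finset]
    congr 1
    ext x
    simp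
  · intro t ht
    have ht' := Finset.mem_filter.1 (Finset.mem_coe.1 ht)
    rw [mem_TT] at ht'
    exact Finset.mem_coe.2 (Finset.mem_filter.2 ⟨(mem_EE G).2 ht'.1.1, ht'.2⟩)

theorem two_le_EE : 2 * cl G univ 2 ≤ (EE G).card := by
  rw [Pool.Agent.P8H52.RC.cl_eq]
  refine Finset.mul_card_image_le_card_of_maps_to (f := fun p : V × V => ({p.1, p.2} : Finset V))
    ?_ 2 ?_
  · intro p hp
    rw [mem_EE] at hp
    rw [Finset.mem_filter, Finset.mem_powersetCard]
    refine ⟨⟨Finset.subset_univ _, Finset.card_pair hp.ne⟩, ?_⟩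
    rw [Finset.coe_pair, SimpleGraph.isClique_pair]
    exact fun _ => hp
  · intro S hS
    obtain ⟨hS1, hS2⟩ := Finset.mem_filter.1 hS
    obtain ⟨a, b, hab, rfl⟩ := Finset.card_eq_two.1 (Finset.mem_powersetCard.1 hS1).2
    have h1 : G.Adj a b := by
      rw [Finset.coe_pair, SimpleGraph.isClique_pair] at hS2
      exact hS2 hab
    have h2 : ({(a, b), (b, a)} : Finset (V × V)) ⊆
        (EE G).filter fun p => ({p.1, p.2} : Finset V) = {a, b} := by
      intro p hp
      rw [Finset.mem_insert, Finset.mem_singleton] at hp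
      rcases hp with rfl | rfl
      · exact Finset.mem_filter.2 ⟨(mem_EE G).2 h1, rfl⟩
      · exact Finset.mem_filter.2 ⟨(mem_EE G).2 h1.symm, Finset.pair_comm _ _⟩
    have h3 : ({(a, b), (b, a)} : Finset (V × V)).card = 2 := by
      rw [Finset.card_pair]
      intro h
      exact hab (Prod.mk.inj h).1
    rw [← h3]
    exact Finset.card_le_card h2

theorem TT_le : (TT G).card ≤ 6 * cl G univ 3 := by
  rw [Pool.Agent.P8H52.RC.cl_eq]
  refine Finset.card_le_mul_card_image_of_maps_to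
    (f := fun t : V × V × V => ({t.1, t.2.1, t.2.2} : Finset V)) ?_ 6 ?_
  · intro t ht
    rw [mem_TT] at ht
    obtain ⟨h1, h2, h3⟩ := ht
    have := (SimpleGraph.is3Clique_iff (G := G) (s := {t.1, t.2.1, t.2.2})).2
      ⟨_, _, _, h1, h3, h2, rfl⟩
    rw [Finset.mem_filter, Finset.mem_powersetCard]
    exact ⟨⟨Finset.subset_univ _, this.card_eq⟩, this.isClique⟩
  · intro S hS
    obtain ⟨hS1, hS2⟩ := Finset.mem_filter.1 hS
    obtain ⟨a, b, c, hab, hac, hbc, rfl⟩ := Finset.card_eq_three.1 (Finset.mem_powersetCard.1 hS1).2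
    have h2 : (TT G).filter (fun t => ({t.1, t.2.1, t.2.2} : Finset V) = {a, b, c}) ⊆
        {(a, b, c), (a, c, b), (b, a, c), (b, c, a), (c, a, b), (c, b, a)} := by
      rintro ⟨x, y, z⟩ ht
      obtain ⟨ht1, ht2⟩ := Finset.mem_filter.1 ht
      rw [mem_TT] at ht1
      obtain ⟨h1, h2, h3⟩ := ht1
      simp only at h1 h2 h3 ht2
      have hx : x ∈ ({a, b, c} : Finset V) := by rw [← ht2]; simp
      have hy : y ∈ ({a, b, c} : Finset V) := by rw [← ht2]; simp
      have hz : z ∈ ({a, b, c} : Finset V) := by rw [← ht2]; simp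
      simp only [Finset.mem_insert, Finset.mem_singleton] at hx hy hz
      have n1 := h1.ne
      have n2 := h2.ne
      have n3 := h3.ne
      simp only [Finset.mem_insert, Finset.mem_singleton, Prod.mk.injEq]
      rcases hx with rfl | rfl | rfl <;> rcases hy with rfl | rfl | rfl <;>
        rcases hz with rfl | rfl | rfl <;> simp_all
    exact (Finset.card_le_card h2).trans Finset.card_le_six

end

theorem cnt2 : S_CNT2 := by
  classical
  intro V _ G hT h3 he ht
  have hpos : ∀ a b, G.Adj a b → 1 ≤ cc G a b := fun a b h => cc_pos G hT h3 h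
  have hE := two_le_EE G
  have hTT := TT_le G
  rw [he] at hE
  rw [ht] at hTT
  obtain ⟨N, hN⟩ : ∃ N, N = Fintype.card V := ⟨_, rfl⟩
  rw [← hN] at hE hTT
  -- the number of ordered triangles is the sum of `cc` over the ordered edges
  have hsum : (TT G).card = ∑ p ∈ EE G, cc G p.1 p.2 := by
    have := card_fib G (fun _ => True)
    simpa using this
  -- edges with `cc = 1`
  obtain ⟨A0, hA0⟩ : ∃ A, A = (TT G).filter fun t => cc G t.1 t.2.1 = 1 := ⟨_, rfl⟩
  obtain ⟨A1, hA1⟩ : ∃ A, A = (TT G).filter fun t => cc G t.2.1 t.2.2 = 1 := ⟨_, rfl⟩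
  obtain ⟨A2, hA2⟩ : ∃ A, A = (TT G).filter fun t => cc G t.1 t.2.2 = 1 := ⟨_, rfl⟩
  have m0 : ∀ t, t ∈ A0 ↔ (G.Adj t.1 t.2.1 ∧ G.Adj t.2.1 t.2.2 ∧ G.Adj t.1 t.2.2) ∧
      cc G t.1 t.2.1 = 1 := fun t => by rw [hA0, Finset.mem_filter, mem_TT]
  have m1 : ∀ t, t ∈ A1 ↔ (G.Adj t.1 t.2.1 ∧ G.Adj t.2.1 t.2.2 ∧ G.Adj t.1 t.2.2) ∧
      cc G t.2.1 t.2.2 = 1 := fun t => by rw [hA1, Finset.mem_filter, mem_TT]
  have m2 : ∀ t, t ∈ A2 ↔ (G.Adj t.1 t.2.1 ∧ G.Adj t.2.1 t.2.2 ∧ G.Adj t.1 t.2.2) ∧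
      cc G t.1 t.2.2 = 1 := fun t => by rw [hA2, Finset.mem_filter, mem_TT]
  have c0 : A0.card = ((EE G).filter fun p => cc G p.1 p.2 = 1).card := by
    have h : ((TT G).filter fun t => cc G t.1 t.2.1 = 1).card =
        ∑ p ∈ (EE G).filter (fun p => cc G p.1 p.2 = 1), cc G p.1 p.2 := by
      convert card_fib G (fun p => cc G p.1 p.2 = 1)
    rw [hA0, h, Finset.card_eq_sum_ones]
    exact Finset.sum_congr rfl fun p hp => (Finset.mem_filter.1 hp).2
  have c1 : A1.card = A0.card := by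
    refine Finset.card_nbij' (fun t => (t.2.1, t.2.2, t.1)) (fun t => (t.2.2, t.1, t.2.1)) ?_ ?_ ?_ ?_
    · intro t ht
      rw [Finset.mem_coe, m1] at ht
      rw [Finset.mem_coe, m0]
      exact ⟨⟨ht.1.2.1, ht.1.2.2.symm, ht.1.1.symm⟩, ht.2⟩
    · intro t ht
      rw [Finset.mem_coe, m0] at ht
      rw [Finset.mem_coe, m1]
      exact ⟨⟨ht.1.2.2.symm, ht.1.1, ht.1.2.1.symm⟩, ht.2⟩
    · intro t _; rfl
    · intro t _; rfl
  have c2 : A2.card = A0.card := by
    refine Finset.card_nbij' (fun t => (t.1, t.2.2, t.2.1)) (fun t => (t.1, t.2.2, t.2.1)) ?_ ?_ ?_ ?_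
    · intro t ht
      rw [Finset.mem_coe, m2] at ht
      rw [Finset.mem_coe, m0]
      exact ⟨⟨ht.1.2.2, ht.1.2.1.symm, ht.1.1⟩, ht.2⟩
    · intro t ht
      rw [Finset.mem_coe, m0] at ht
      rw [Finset.mem_coe, m2]
      exact ⟨⟨ht.1.2.2, ht.1.2.1.symm, ht.1.1⟩, ht.2⟩
    · intro t _; rfl
    · intro t _; rfl
  have d01 : Disjoint A0 A1 := by
    rw [Finset.disjoint_left]
    intro t h0 h1
    rw [m0] at h0
    rw [m1] at h1
    refine not_two G hT h3 h0.1.1.symm h0.1.2.1 h0.1.2.2 ?_ h1.2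
    rw [cc_comm]
    exact h0.2
  have d02 : Disjoint A0 A2 := by
    rw [Finset.disjoint_left]
    intro t h0 h1
    rw [m0] at h0
    rw [m2] at h1
    exact not_two G hT h3 h0.1.1 h0.1.2.2 h0.1.2.1 h0.2 h1.2
  have d12 : Disjoint A1 A2 := by
    rw [Finset.disjoint_left]
    intro t h0 h1
    rw [m1] at h0
    rw [m2] at h1
    refine not_two G hT h3 h0.1.2.1.symm h0.1.2.2.symm h0.1.1.symm ?_ ?_
    · rw [cc_comm]; exact h0.2
    · rw [cc_comm]; exact h1.2
  have hU : A0 ∪ A1 ∪ A2 ⊆ TT G := by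
    intro t ht
    rw [Finset.mem_union, Finset.mem_union, m0, m1, m2] at ht
    rw [mem_TT]
    tauto
  have hUc : (A0 ∪ A1 ∪ A2).card = 3 * A0.card := by
    rw [Finset.card_union_of_disjoint (Finset.disjoint_union_left.2 ⟨d02, d12⟩),
      Finset.card_union_of_disjoint d01, c1, c2]
    ring
  have hle := Finset.card_le_card hU
  rw [hUc] at hle
  -- the other edges
  have hsplit := Finset.sum_filter_add_sum_filter_not (EE G) (fun p => cc G p.1 p.2 = 1)
    (fun p => cc G p.1 p.2)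
  have hs1 : ∑ p ∈ (EE G).filter (fun p => cc G p.1 p.2 = 1), cc G p.1 p.2 = A0.card := by
    rw [c0, Finset.card_eq_sum_ones]
    exact Finset.sum_congr rfl fun p hp => (Finset.mem_filter.1 hp).2
  have hcs := Finset.card_filter_add_card_filter_not (s := EE G) (fun p => cc G p.1 p.2 = 1)
  have h2 : ∀ p ∈ (EE G).filter (fun p => ¬ cc G p.1 p.2 = 1), 2 ≤ cc G p.1 p.2 := by
    intro p hp
    obtain ⟨hp1, hp2⟩ := Finset.mem_filter.1 hp
    have := hpos p.1 p.2 ((mem_EE G).1 hp1)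
    omega
  have hs2 := Finset.card_nsmul_le_sum _ _ _ h2
  rw [smul_eq_mul] at hs2
  have key1 : A0.card = 2 * N := by omega
  have key2 : (TT G).card = 3 * A0.card := by omega
  have key3 : ∑ p ∈ (EE G).filter (fun p => ¬ cc G p.1 p.2 = 1), cc G p.1 p.2 =
      ∑ _p ∈ (EE G).filter (fun p => ¬ cc G p.1 p.2 = 1), 2 := by
    rw [Finset.sum_const, smul_eq_mul]
    omega
  have key4 := (Finset.sum_eq_sum_iff_of_le h2).1 key3.symm
  have hcc : ∀ a b, G.Adj a b → cc G a b = 1 ∨ cc G a b = 2 := by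
    intro a b hab
    by_cases h : cc G a b = 1
    · exact Or.inl h
    · right
      exact (key4 (a, b) (Finset.mem_filter.2 ⟨(mem_EE G).2 hab, h⟩)).symm
  have hall : A0 ∪ A1 ∪ A2 = TT G := Finset.eq_of_subset_of_card_le hU (by rw [hUc, key2])
  refine ⟨hcc, fun a b x hab hbx hax => ?_⟩
  have hm : (a, b, x) ∈ A0 ∪ A1 ∪ A2 := by
    rw [hall, mem_TT]
    exact ⟨hab, hbx, hax⟩
  rw [Finset.mem_union, Finset.mem_union] at hm
  have e0 : cc G a b = 1 ↔ (a, b, x) ∈ A0 := by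
    rw [m0]; exact ⟨fun h => ⟨⟨hab, hbx, hax⟩, h⟩, fun h => h.2⟩
  have e1 : cc G b x = 1 ↔ (a, b, x) ∈ A1 := by
    rw [m1]; exact ⟨fun h => ⟨⟨hab, hbx, hax⟩, h⟩, fun h => h.2⟩
  have e2 : cc G a x = 1 ↔ (a, b, x) ∈ A2 := by
    rw [m2]; exact ⟨fun h => ⟨⟨hab, hbx, hax⟩, h⟩, fun h => h.2⟩
  have n01 : ¬ (cc G a b = 1 ∧ cc G b x = 1) := fun h =>
    Finset.disjoint_left.1 d01 (e0.1 h.1) (e1.1 h.2)
  have n02 : ¬ (cc G a b = 1 ∧ cc G a x = 1) := fun h =>
    Finset.disjoint_left.1 d02 (e0.1 h.1) (e2.1 h.2)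
  have n12 : ¬ (cc G b x = 1 ∧ cc G a x = 1) := fun h =>
    Finset.disjoint_left.1 d12 (e1.1 h.1) (e2.1 h.2)
  have k0 := hcc a b hab
  have k1 := hcc b x hbx
  have k2 := hcc a x hax
  rcases hm with (h | h) | h
  · have := e0.2 h
    left
    refine ⟨this, ?_, ?_⟩
    · rcases k1 with k | k
      · exact absurd ⟨this, k⟩ n01
      · exact k
    · rcases k2 with k | k
      · exact absurd ⟨this, k⟩ n02
      · exact k
  · have := e1.2 h
    right; left
    refine ⟨?_, this, ?_⟩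
    · rcases k0 with k | k
      · exact absurd ⟨k, this⟩ n01
      · exact k
    · rcases k2 with k | k
      · exact absurd ⟨this, k⟩ n12
      · exact k
  · have := e2.2 h
    right; right
    refine ⟨?_, ?_, this⟩
    · rcases k0 with k | k
      · exact absurd ⟨k, this⟩ n02
      · exact k
    · rcases k1 with k | k
      · exact absurd ⟨k, this⟩ n12
      · exact k

end Pool.Agent.P8H55.RC
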